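import Mathlib

/-!
Project SW (helper139): stationary smooth random fields on `ℝ^d`.
-/

set_option autoImplicit false
open MeasureTheory Filter Topology
open scoped ContDiff ENNReal

namespace Pool.Agent.Y139.SW

noncomputable section

/-- the space `ℝ^d` -/
abbrev E (d : ℕ) := EuclideanSpace ℝ (Fin d)

variable {d : ℕ}

/-- the partial derivative in the direction of the `i`-th coordinate -/
def D (i : Fin d) (f : E d → ℝ) (y : E d) : ℝ := fderiv ℝ f y (EuclideanSpace.single i 1)

/-- the Laplacian -/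
def Lap (f : E d → ℝ) (y : E d) : ℝ := ∑ i, D i (D i f) y

section D

lemma D_sm {f : E d → ℝ} (hf : ContDiff ℝ ∞ f) (i : Fin d) : ContDiff ℝ ∞ (D i f) :=
  (hf.fderiv_right (m := ∞) le_rfl).clm_apply contDiff_const

lemma sdiff {f : E d → ℝ} (hf : ContDiff ℝ ∞ f) (y : E d) : DifferentiableAt ℝ f y :=
  (hf.differentiable (by simp)) y

lemma D_mul {f g : E d → ℝ} (hf : ContDiff ℝ ∞ f) (hg : ContDiff ℝ ∞ g) (i : Fin d) (y : E d) :
    D i (fun w => f w * g w) y = D i f y * g y + f y * D i g y := by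
  unfold D
  rw [fderiv_fun_mul (sdiff hf y) (sdiff hg y)]
  simp only [add_apply, smul_apply, smul_eq_mul]
  ring

lemma D_comp {k : ℝ → ℝ} {f : E d → ℝ} (hk : ContDiff ℝ ∞ k) (hf : ContDiff ℝ ∞ f) (i : Fin d)
    (y : E d) : D i (fun w => k (f w)) y = deriv k (f y) * D i f y := by
  unfold D
  have h1 : HasFDerivAt (fun w => k (f w)) (deriv k (f y) • fderiv ℝ f y) y :=
    ((hk.differentiable (by simp)) (f y)).hasDerivAt.comp_hasFDerivAt y (sdiff hf y).hasFDerivAt
  rw [h1.fderiv]
  simp only [smul_apply, smul_eq_mul]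

lemma D_inv {f : E d → ℝ} (hf : ContDiff ℝ ∞ f) {y : E d} (h0 : f y ≠ 0) (i : Fin d) :
    D i (fun w => (f w)⁻¹) y = -(D i f y) / (f y) ^ 2 := by
  unfold D
  have h1 : HasFDerivAt (fun w => (f w)⁻¹) (-((f y) ^ 2)⁻¹ • fderiv ℝ f y) y :=
    (hasDerivAt_inv h0).comp_hasFDerivAt y (sdiff hf y).hasFDerivAt
  rw [h1.fderiv]
  simp only [smul_apply, smul_eq_mul]
  ring

lemma D_sum {ι : Type*} (t : Finset ι) {f : ι → E d → ℝ} (hf : ∀ j, ContDiff ℝ ∞ (f j))
    (i : Fin d) (y : E d) : D i (fun w => ∑ j ∈ t, f j w) y = ∑ j ∈ t, D i (f j) y := by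
  unfold D
  rw [fderiv_fun_sum fun j _ => sdiff (hf j) y]
  simp

lemma D_comm {f : E d → ℝ} (hf : ContDiff ℝ ∞ f) (i j : Fin d) (y : E d) :
    D i (D j f) y = D j (D i f) y := by
  have hs : IsSymmSndFDerivAt ℝ f y := hf.contDiffAt.isSymmSndFDerivAt (by
    simp only [minSmoothness_of_isRCLikeNormedField]
    exact (WithTop.coe_le_coe.mpr (le_top : (2 : ℕ∞) ≤ ⊤) :
      ((2 : ℕ∞) : WithTop ℕ∞) ≤ ((⊤ : ℕ∞) : WithTop ℕ∞)))
  have hd : DifferentiableAt ℝ (fderiv ℝ f) y :=
    ((hf.fderiv_right (m := ∞) le_rfl).differentiable (by simp)) y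
  have e : ∀ v w : E d, fderiv ℝ (fun z => fderiv ℝ f z w) y v =
      fderiv ℝ (fderiv ℝ f) y v w := by
    intro v w
    rw [fderiv_clm_apply hd (differentiableAt_const w)]
    simp
  show fderiv ℝ (fun z => fderiv ℝ f z _) y _ = fderiv ℝ (fun z => fderiv ℝ f z _) y _
  rw [e, e, hs.eq]

lemma Lap_D {f : E d → ℝ} (hf : ContDiff ℝ ∞ f) (i : Fin d) (y : E d) :
    Lap (D i f) y = D i (Lap f) y := by
  have e : D i (Lap f) y = ∑ j, D i (D j (D j f)) y :=
    D_sum Finset.univ (fun j => D_sm (D_sm hf j) j) i y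
  rw [e]
  refine Finset.sum_congr rfl fun j _ => ?_
  rw [D_comm (D_sm hf j) i j]
  have : D j (D i f) = D i (D j f) := funext fun z => D_comm hf j i z
  rw [this]

end D

variable {S : Type*} [MeasurableSpace S] {P : Measure S} {τ : E d → S → S}

/-- smooth random fields which are stationary under `τ` -/
structure SF (τ : E d → S → S) (G : S → E d → ℝ) : Prop where
  meas : ∀ y, Measurable fun s => G s y
  smooth : ∀ s, ContDiff ℝ ∞ (G s)
  cov : ∀ x s y, G (τ x s) y = G s (y + x)

lemma SF.der {G : S → E d → ℝ} (h : SF τ G) (i : Fin d) : SF τ (fun s => D i (G s)) := by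
  refine ⟨fun y => ?_, fun s => D_sm (h.smooth s) i, fun x s y => ?_⟩
  · refine measurable_of_tendsto_metrizable
      (f := fun (n : ℕ) s => (n : ℝ) • (G s (y + (n : ℝ)⁻¹ • EuclideanSpace.single i 1) - G s y))
      (fun n => ?_) ?_
    · simp only [smul_eq_mul]
      exact measurable_const.mul ((h.meas _).sub (h.meas _))
    · rw [tendsto_pi_nhds]
      intro s
      exact ((sdiff (h.smooth s) y).hasFDerivAt.lim_real (EuclideanSpace.single i 1)).comp
        tendsto_natCast_atTop_atTop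
  · have e : G (τ x s) = fun y => G s (y + x) := funext fun y => h.cov x s y
    show fderiv ℝ (G (τ x s)) y _ = fderiv ℝ (G s) (y + x) _
    rw [e, fderiv_comp_add_right]

lemma SF.mul {G H : S → E d → ℝ} (h : SF τ G) (h' : SF τ H) : SF τ (fun s y => G s y * H s y) :=
  ⟨fun y => (h.meas y).mul (h'.meas y), fun s => (h.smooth s).mul (h'.smooth s),
    fun x s y => by rw [h.cov, h'.cov]⟩

lemma SF.comp {G : S → E d → ℝ} {k : ℝ → ℝ} (hk : ContDiff ℝ ∞ k) (h : SF τ G) :
    SF τ (fun s y => k (G s y)) :=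
  ⟨fun y => hk.continuous.measurable.comp (h.meas y), fun s => hk.comp (h.smooth s),
    fun x s y => by rw [h.cov]⟩

lemma SF.inv {G : S → E d → ℝ} (h : SF τ G) (h0 : ∀ s y, G s y ≠ 0) :
    SF τ (fun s y => (G s y)⁻¹) :=
  ⟨fun y => (h.meas y).inv, fun s => (h.smooth s).inv (h0 s), fun x s y => by rw [h.cov]⟩

lemma SF.neg {G : S → E d → ℝ} (h : SF τ G) : SF τ (fun s y => -G s y) :=
  ⟨fun y => (h.meas y).neg, fun s => (h.smooth s).neg, fun x s y => by rw [h.cov]⟩

lemma joint {G : S → E d → ℝ} (h : SF τ G) : Measurable fun p : E d × S => G p.2 p.1 :=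
  measurable_uncurry_of_continuous_of_measurable (u := fun y s => G s y)
    (fun s => (h.smooth s).continuous) h.meas

/-- stationarity for integrals -/
lemma st_int (hτ : ∀ x, MeasurePreserving (τ x) P P) {G : S → E d → ℝ} (h : SF τ G) (y : E d)
    {k : ℝ → ℝ} (hk : Measurable k) : ∫ s, k (G s y) ∂P = ∫ s, k (G s 0) ∂P := by
  have e : ∀ s, G s y = G (τ y s) 0 := fun s => by rw [h.cov, zero_add]
  have m : Measurable fun s => k (G s 0) := hk.comp (h.meas 0)
  simp only [e]
  have h1 := integral_map (μ := P) (hτ y).measurable.aemeasurable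
    (f := fun s => k (G s 0)) m.aestronglyMeasurable
  rw [(hτ y).map_eq] at h1
  exact h1.symm

lemma st_integrable (hτ : ∀ x, MeasurePreserving (τ x) P P) {G : S → E d → ℝ} (h : SF τ G)
    (y : E d) (hi : Integrable (fun s => G s 0) P) : Integrable (fun s => G s y) P := by
  have e : (fun s => G s y) = (fun s => G s 0) ∘ τ y := by
    funext s
    show G s y = G (τ y s) 0
    rw [h.cov, zero_add]
  rw [e]
  exact (hτ y).integrable_comp_of_integrable hi

lemma st_lint (hτ : ∀ x, MeasurePreserving (τ x) P P) {G : S → E d → ℝ} (h : SF τ G) (y : E d)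
    {k : ℝ → ℝ≥0∞} (hk : Measurable k) : ∫⁻ s, k (G s y) ∂P = ∫⁻ s, k (G s 0) ∂P := by
  have e : ∀ s, G s y = G (τ y s) 0 := fun s => by rw [h.cov, zero_add]
  simp only [e]
  exact (hτ y).lintegral_comp (f := fun s => k (G s 0)) (hk.comp (h.meas 0))

/-- the divergence lemma -/
theorem div0 [IsProbabilityMeasure P] (hτ : ∀ x, MeasurePreserving (τ x) P P) {G : S → E d → ℝ}
    (h : SF τ G) (i : Fin d) (i0 : Integrable (fun s => G s 0) P)
    (i1 : Integrable (fun s => D i (G s) 0) P) : ∫ s, D i (G s) 0 ∂P = 0 := by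
  obtain ⟨e, he⟩ : ∃ e : E d, e = EuclideanSpace.single i 1 := ⟨_, rfl⟩
  have hd := h.der i
  obtain ⟨K, hK⟩ : ∃ K : ℝ → S → ℝ, K = fun t s => D i (G s) (t • e) := ⟨_, rfl⟩
  have mK : Measurable (Function.uncurry K) := by
    refine measurable_uncurry_of_continuous_of_measurable (fun s => ?_) fun t => ?_
    · rw [hK]
      exact (hd.smooth s).continuous.comp (continuous_id.smul continuous_const)
    · rw [hK]; exact hd.meas _
  have sl : ∀ t, Integrable (K t) P := fun t => by
    rw [hK]; exact st_integrable hτ hd _ i1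
  have iK : Integrable (Function.uncurry K) ((volume.restrict (Set.Ioc (0 : ℝ) 1)).prod P) := by
    rw [integrable_prod_iff mK.aestronglyMeasurable]
    refine ⟨ae_of_all _ fun t => sl t, ?_⟩
    have : (fun t => ∫ s, ‖Function.uncurry K (t, s)‖ ∂P) = fun _ => ∫ s, ‖D i (G s) 0‖ ∂P := by
      funext t
      rw [hK]
      exact st_int hτ hd (t • e) measurable_norm
    rw [this]
    exact integrable_const _
  have sw := integral_integral_swap iK
  have l1 : ∫ t in Set.Ioc (0 : ℝ) 1, ∫ s, K t s ∂P = ∫ s, D i (G s) 0 ∂P := by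
    have : ∀ t, ∫ s, K t s ∂P = ∫ s, D i (G s) 0 ∂P := fun t => by
      rw [hK]
      exact st_int hτ hd (t • e) measurable_id
    simp only [this]
    simp
  have l2 : ∀ s, ∫ t in Set.Ioc (0 : ℝ) 1, K t s = G s e - G s 0 := by
    intro s
    rw [← intervalIntegral.integral_of_le zero_le_one, hK]
    have := intervalIntegral.integral_eq_sub_of_hasDerivAt (a := 0) (b := 1)
      (f := fun t : ℝ => G s (t • e)) (f' := fun t => D i (G s) (t • e)) (fun t _ => ?_) ?_
    · rw [this, one_smul, zero_smul]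
    · have h1 : HasDerivAt (fun t : ℝ => t • e) ((1 : ℝ) • e) t := (hasDerivAt_id t).smul_const e
      have h2 := (sdiff (h.smooth s) (t • e)).hasFDerivAt.comp_hasDerivAt t h1
      rw [one_smul, he] at h2
      rw [he]
      exact h2
    · exact ((hd.smooth s).continuous.comp
        (continuous_id.smul continuous_const)).intervalIntegrable 0 1
  rw [l1] at sw
  rw [sw]
  simp only [l2]
  rw [integral_sub (st_integrable hτ h e i0) i0]
  have := st_int hτ h e (k := fun x => x) measurable_id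
  rw [this, sub_self]

end

end Pool.Agent.Y139.SW
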