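import Pool.Agent.Y139.SW.A

/-!
Project SW (helper139): energy identities for stationary solutions of the Helmholtz equation.
-/

set_option autoImplicit false
open MeasureTheory Filter Topology
open scoped ContDiff ENNReal

namespace Pool.Agent.Y139.SW

noncomputable section

variable {d : ℕ}

lemma cint {f g : E d → ℝ} (cf : Continuous f) (sf : HasCompactSupport f) (cg : Continuous g) :
    Integrable (fun y => f y * g y) :=
  (cf.mul cg).integrable_of_hasCompactSupport sf.mul_right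

lemma D_cs {f : E d → ℝ} (sf : HasCompactSupport f) (i : Fin d) : HasCompactSupport (D i f) := by
  have h := sf.fderiv (𝕜 := ℝ)
  refine h.comp_left (g := fun L : E d →L[ℝ] ℝ => L (EuclideanSpace.single i 1)) ?_
  simp

lemma ibp {φ w : E d → ℝ} (hφ : ContDiff ℝ ∞ φ) (sφ : HasCompactSupport φ) (hw : ContDiff ℝ ∞ w)
    (i : Fin d) : ∫ y, φ y * D i w y = -∫ y, D i φ y * w y := by
  refine integral_mul_fderiv_eq_neg_fderiv_mul_of_integrable ?_ ?_ ?_ ?_ ?_
  · exact cint (D_sm hφ i).continuous (D_cs sφ i) hw.continuous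
  · exact cint hφ.continuous sφ (D_sm hw i).continuous
  · exact cint hφ.continuous sφ hw.continuous
  · exact fun x _ => sdiff hφ x
  · exact fun x _ => sdiff hw x

/-- the local energy identity -/
lemma local_energy {φ u : E d → ℝ} (hφ : ContDiff ℝ ∞ φ) (sφ : HasCompactSupport φ)
    (hu : ContDiff ℝ ∞ u) (eq : ∀ y, Lap u y = -u y) :
    ∫ y, φ y * ∑ i, D i u y ^ 2 = ∫ y, (φ y + 1 / 2 * Lap φ y) * u y ^ 2 := by
  have cu := hu.continuous
  have c1 : ∀ i, Continuous (D i u) := fun i => (D_sm hu i).continuous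
  have c2 : ∀ i, Continuous (D i (D i u)) := fun i => (D_sm (D_sm hu i) i).continuous
  have cφ := hφ.continuous
  have k : ∀ i, ∫ y, φ y * D i u y ^ 2 = (∫ y, D i (D i φ) y * (1 / 2 * u y ^ 2)) -
      ∫ y, φ y * (u y * D i (D i u) y) := by
    intro i
    have h1 := ibp hφ sφ (hu.mul (D_sm hu i)) i
    have h2 := ibp (D_sm hφ i) (D_cs sφ i) (contDiff_const.mul (hu.pow 2) :
      ContDiff ℝ ∞ fun y => 1 / 2 * u y ^ 2) i
    have e1 : ∀ y, D i (fun y => u y * D i u y) y = D i u y ^ 2 + u y * D i (D i u) y := by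
      intro y
      rw [D_mul hu (D_sm hu i)]; ring
    have e2 : ∀ y, D i (fun y => 1 / 2 * u y ^ 2) y = u y * D i u y := by
      intro y
      have h3 := D_comp (k := fun x : ℝ => 1 / 2 * x ^ 2)
        (contDiff_const.mul (contDiff_id.pow 2)) hu i y
      rw [h3]
      have h4 : deriv (fun x : ℝ => 1 / 2 * x ^ 2) (u y) = u y := by
        have : HasDerivAt (fun x : ℝ => 1 / 2 * x ^ 2) (1 / 2 * (2 * u y)) (u y) := by
          have := ((hasDerivAt_id (u y)).pow 2).const_mul (1 / 2 : ℝ)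
          simpa using this
        rw [this.deriv]; ring
      rw [h4]
    have h1' : ∫ y, φ y * D i (fun y => u y * D i u y) y =
        -∫ y, D i φ y * (u y * D i u y) := h1
    simp only [e1] at h1'
    simp only [e2] at h2
    have ia : Integrable (fun y => φ y * D i u y ^ 2) := cint cφ sφ ((c1 i).pow 2)
    have ib : Integrable (fun y => φ y * (u y * D i (D i u) y)) := cint cφ sφ (cu.mul (c2 i))
    have h5 : ∫ y, φ y * (D i u y ^ 2 + u y * D i (D i u) y) =
        (∫ y, φ y * D i u y ^ 2) + ∫ y, φ y * (u y * D i (D i u) y) := by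
      rw [← integral_add ia ib]
      congr 1; funext y; ring
    rw [h5] at h1'
    linarith
  have e3 : ∫ y, φ y * ∑ i, D i u y ^ 2 = ∑ i, ∫ y, φ y * D i u y ^ 2 := by
    simp only [Finset.mul_sum]
    exact integral_finsetSum _ fun i _ => cint cφ sφ ((c1 i).pow 2)
  rw [e3]
  simp only [k]
  rw [Finset.sum_sub_distrib]
  have e4 : ∑ i, ∫ y, φ y * (u y * D i (D i u) y) = -∫ y, φ y * u y ^ 2 := by
    have ib : ∀ i ∈ Finset.univ, Integrable (fun y => φ y * (u y * D i (D i u) y)) :=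
      fun i _ => cint cφ sφ (cu.mul (c2 i))
    rw [← integral_finsetSum _ ib, ← integral_neg]
    congr 1; funext y
    have := eq y
    unfold Lap at this
    rw [← Finset.mul_sum, ← Finset.mul_sum, this]; ring
  have e5 : ∑ i, ∫ y, D i (D i φ) y * (1 / 2 * u y ^ 2) =
      ∫ y, 1 / 2 * Lap φ y * u y ^ 2 := by
    have ib : ∀ i ∈ Finset.univ, Integrable (fun y => D i (D i φ) y * (1 / 2 * u y ^ 2)) :=
      fun i _ => cint (D_sm (D_sm hφ i) i).continuous
        (D_cs (D_cs sφ i) i) (continuous_const.mul (cu.pow 2))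
    rw [← integral_finsetSum _ ib]
    congr 1; funext y
    unfold Lap
    rw [← Finset.sum_mul]; ring
  rw [e4, e5, sub_neg_eq_add]
  have i1 : Integrable (fun y => 1 / 2 * Lap φ y * u y ^ 2) := by
    have : (fun y => 1 / 2 * Lap φ y * u y ^ 2) =
        fun y => ∑ i, D i (D i φ) y * (1 / 2 * u y ^ 2) := by
      funext y; unfold Lap; rw [← Finset.sum_mul]; ring
    rw [this]
    exact integrable_finsetSum _ fun i _ => cint (D_sm (D_sm hφ i) i).continuous
      (D_cs (D_cs sφ i) i) (continuous_const.mul (cu.pow 2))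
  have i2 : Integrable (fun y => φ y * u y ^ 2) := cint cφ sφ (cu.pow 2)
  rw [← integral_add i1 i2]
  congr 1; funext y; ring

variable {S : Type*} [MeasurableSpace S] {P : Measure S} {τ : E d → S → S}

lemma ton [IsProbabilityMeasure P] (hτ : ∀ x, MeasurePreserving (τ x) P P) {H : S → E d → ℝ}
    (h : SF τ H) {ψ : E d → ℝ} (cψ : Continuous ψ) (ψ0 : ∀ y, 0 ≤ ψ y) :
    ∫⁻ s, (∫⁻ y, ENNReal.ofReal (ψ y * H s y ^ 2)) ∂P =
      (∫⁻ y, ENNReal.ofReal (ψ y)) * ∫⁻ s, ENNReal.ofReal (H s 0 ^ 2) ∂P := by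
  have mj : Measurable fun p : S × E d => H p.1 p.2 := (joint h).comp measurable_swap
  have mm : Measurable (Function.uncurry fun (s : S) (y : E d) =>
      ENNReal.ofReal (ψ y * H s y ^ 2)) :=
    ((cψ.measurable.comp measurable_snd).mul (mj.pow_const 2)).ennreal_ofReal
  rw [lintegral_lintegral_swap mm.aemeasurable]
  have e : ∀ y, ∫⁻ s, ENNReal.ofReal (ψ y * H s y ^ 2) ∂P =
      ENNReal.ofReal (ψ y) * ∫⁻ s, ENNReal.ofReal (H s 0 ^ 2) ∂P := by
    intro y
    simp only [ENNReal.ofReal_mul (ψ0 y)]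
    rw [lintegral_const_mul _ ((h.meas y).pow_const 2).ennreal_ofReal]
    rw [st_lint hτ h y (k := fun x => ENNReal.ofReal (x ^ 2))
      (measurable_id.pow_const 2).ennreal_ofReal]
  simp only [e]
  exact lintegral_mul_const _ cψ.measurable.ennreal_ofReal

/-- stationary solutions of the Helmholtz equation with finite second moment -/
structure Wave (P : Measure S) (τ : E d → S → S) (G : S → E d → ℝ) : Prop where
  sf : SF τ G
  eq : ∀ s y, Lap (G s) y = -G s y
  l2 : Integrable (fun s => G s 0 ^ 2) P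

lemma Wave.der [IsProbabilityMeasure P] (hτ : ∀ x, MeasurePreserving (τ x) P P)
    {G : S → E d → ℝ} (W : Wave P τ G) (i : Fin d) : Wave P τ (fun s => D i (G s)) := by
  refine ⟨W.sf.der i, fun s y => ?_, ?_⟩
  · rw [Lap_D (W.sf.smooth s)]
    have : Lap (G s) = fun y => -G s y := funext (W.eq s)
    rw [this]
    show fderiv ℝ (fun y => -G s y) y _ = -fderiv ℝ (G s) y _
    rw [fderiv_fun_neg]; rfl
  · let b : ContDiffBump (0 : E d) := ⟨1, 2, one_pos, one_lt_two⟩
    obtain ⟨φ, hφ⟩ : ∃ φ : E d → ℝ, φ = fun x => b x := ⟨_, rfl⟩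
    have sφ : ContDiff ℝ ∞ φ := by rw [hφ]; exact b.contDiff
    have kφ : HasCompactSupport φ := by rw [hφ]; exact b.hasCompactSupport
    have φ0 : ∀ x, 0 ≤ φ x := fun x => by rw [hφ]; exact b.nonneg
    obtain ⟨ψ, hψ⟩ : ∃ ψ : E d → ℝ, ψ = fun y => |φ y + 1 / 2 * Lap φ y| := ⟨_, rfl⟩
    have cL : Continuous (Lap φ) := by
      unfold Lap
      exact continuous_finsetSum _ fun i _ => (D_sm (D_sm sφ i) i).continuous
    have kL : HasCompactSupport (Lap φ) := by
      refine HasCompactSupport.intro kφ fun y hy => ?_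
      unfold Lap
      refine Finset.sum_eq_zero fun j _ => ?_
      have h1 : D j φ =ᶠ[𝓝 y] fun _ => 0 := by
        filter_upwards [(isClosed_tsupport φ).isOpen_compl.mem_nhds hy] with z hz
        unfold D
        rw [fderiv_of_notMem_tsupport ℝ hz]; simp
      show fderiv ℝ (D j φ) y _ = 0
      rw [h1.fderiv_eq]; simp
    have cψ : Continuous ψ := by
      rw [hψ]; exact (sφ.continuous.add (continuous_const.mul cL)).abs
    have kψ : HasCompactSupport ψ := by
      rw [hψ]
      exact (kφ.add kL.mul_left).comp_left (g := fun x : ℝ => |x|) abs_zero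
    have ψ0 : ∀ y, 0 ≤ ψ y := fun y => by rw [hψ]; exact abs_nonneg _
    have iψ : Integrable ψ := cψ.integrable_of_hasCompactSupport kψ
    have h1 := ton (P := P) hτ (W.sf.der i) sφ.continuous φ0
    have h2 := ton (P := P) hτ W.sf cψ ψ0
    have le : ∫⁻ s, (∫⁻ y, ENNReal.ofReal (φ y * D i (G s) y ^ 2)) ∂P ≤
        ∫⁻ s, (∫⁻ y, ENNReal.ofReal (ψ y * G s y ^ 2)) ∂P := by
      refine lintegral_mono fun s => ?_
      have u := W.sf.smooth s
      have i1 : ∀ j, Integrable fun y => φ y * D j (G s) y ^ 2 := fun j =>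
        cint sφ.continuous kφ ((D_sm u j).continuous.pow 2)
      have i2 : Integrable fun y => ψ y * G s y ^ 2 := cint cψ kψ (u.continuous.pow 2)
      rw [← ofReal_integral_eq_lintegral_ofReal (i1 i)
        (ae_of_all _ fun y => mul_nonneg (φ0 y) (sq_nonneg _)),
        ← ofReal_integral_eq_lintegral_ofReal i2
        (ae_of_all _ fun y => mul_nonneg (ψ0 y) (sq_nonneg _))]
      refine ENNReal.ofReal_le_ofReal ?_
      have i3 : Integrable fun y => φ y * ∑ j, D j (G s) y ^ 2 := by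
        simp only [Finset.mul_sum]
        exact integrable_finsetSum _ fun j _ => i1 j
      have a1 : ∫ y, φ y * D i (G s) y ^ 2 ≤ ∫ y, φ y * ∑ j, D j (G s) y ^ 2 := by
        refine integral_mono (i1 i) i3 fun y => ?_
        refine mul_le_mul_of_nonneg_left ?_ (φ0 y)
        exact Finset.single_le_sum (f := fun j => D j (G s) y ^ 2)
          (fun j _ => sq_nonneg _) (Finset.mem_univ i)
      refine a1.trans ?_
      rw [local_energy sφ kφ u (W.eq s)]
      have i0 : Integrable (fun y => (φ y + 1 / 2 * Lap φ y) * G s y ^ 2) :=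
        cint (sφ.continuous.add (continuous_const.mul cL)) (kφ.add kL.mul_left)
          (u.continuous.pow 2)
      refine integral_mono i0 i2 fun y => ?_
      show (φ y + 1 / 2 * Lap φ y) * G s y ^ 2 ≤ ψ y * G s y ^ 2
      rw [hψ]
      exact mul_le_mul_of_nonneg_right (le_abs_self _) (sq_nonneg _)
    have fin1 : ∫⁻ s, ENNReal.ofReal (G s 0 ^ 2) ∂P ≠ ⊤ := W.l2.lintegral_lt_top.ne
    have fin2 : ∫⁻ y, ENNReal.ofReal (ψ y) ≠ ⊤ := iψ.lintegral_lt_top.ne
    rw [h1, h2] at le
    have pos : ∫⁻ y, ENNReal.ofReal (φ y) ≠ 0 := by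
      have : 0 < ∫ y, φ y := by rw [hφ]; exact b.integral_pos
      have iφ : Integrable φ := sφ.continuous.integrable_of_hasCompactSupport kφ
      rw [← ofReal_integral_eq_lintegral_ofReal iφ (ae_of_all _ φ0)]
      exact (ENNReal.ofReal_pos.2 this).ne'
    have fin : ∫⁻ s, ENNReal.ofReal (D i (G s) 0 ^ 2) ∂P ≠ ⊤ := by
      intro h
      rw [h, ENNReal.mul_top pos] at le
      exact (ENNReal.mul_ne_top fin2 fin1) (top_le_iff.1 le)
    have mD : Measurable fun s => D i (G s) 0 ^ 2 := ((W.sf.der i).meas 0).pow_const 2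
    exact (lintegral_ofReal_ne_top_iff_integrable mD.aestronglyMeasurable
      (ae_of_all _ fun s => sq_nonneg _)).1 fin

section l2

lemma mul_l2 {a b : S → ℝ} (ma : Measurable a) (mb : Measurable b)
    (ia : Integrable (fun s => a s ^ 2) P) (ib : Integrable (fun s => b s ^ 2) P) :
    Integrable (fun s => a s * b s) P := by
  refine Integrable.mono' (ia.add ib) (ma.mul mb).aestronglyMeasurable (ae_of_all _ fun s => ?_)
  show ‖a s * b s‖ ≤ a s ^ 2 + b s ^ 2
  rw [Real.norm_eq_abs, abs_mul, ← sq_abs (a s), ← sq_abs (b s)]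
  nlinarith [sq_nonneg (|a s| - |b s|), sq_nonneg (|a s|), sq_nonneg (|b s|)]

lemma l2_l1 [IsProbabilityMeasure P] {a : S → ℝ} (ma : Measurable a)
    (ia : Integrable (fun s => a s ^ 2) P) : Integrable a P := by
  refine Integrable.mono' ((integrable_const (1 : ℝ)).add ia) ma.aestronglyMeasurable
    (ae_of_all _ fun s => ?_)
  show ‖a s‖ ≤ 1 + a s ^ 2
  rw [Real.norm_eq_abs, ← sq_abs (a s)]
  nlinarith [sq_nonneg (|a s| - 1), abs_nonneg (a s)]

end l2

lemma Wave.m0 {G : S → E d → ℝ} (W : Wave P τ G) : Measurable fun s => G s 0 := W.sf.meas 0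

/-- the energy identity -/
theorem Wave.energy [IsProbabilityMeasure P] (hτ : ∀ x, MeasurePreserving (τ x) P P)
    {G : S → E d → ℝ} (W : Wave P τ G) :
    ∑ i, ∫ s, D i (G s) 0 ^ 2 ∂P = ∫ s, G s 0 ^ 2 ∂P := by
  have W1 := fun i => W.der hτ i
  have W2 := fun i => (W1 i).der hτ i
  have e1 : ∀ i s, D i (fun y => G s y * D i (G s) y) 0 =
      D i (G s) 0 ^ 2 + G s 0 * D i (D i (G s)) 0 := by
    intro i s
    rw [D_mul (W.sf.smooth s) ((W1 i).sf.smooth s)]; ring
  have ip : ∀ i, Integrable (fun s => G s 0 * D i (D i (G s)) 0) P := fun i =>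
    mul_l2 W.m0 (W2 i).m0 W.l2 (W2 i).l2
  have k : ∀ i, ∫ s, D i (G s) 0 ^ 2 ∂P = -∫ s, G s 0 * D i (D i (G s)) 0 ∂P := by
    intro i
    have h := div0 hτ (W.sf.mul (W1 i).sf) i (mul_l2 W.m0 (W1 i).m0 W.l2 (W1 i).l2) (by
      simp only [e1]
      exact (W1 i).l2.add (ip i))
    simp only [e1] at h
    rw [integral_add (W1 i).l2 (ip i)] at h
    linarith
  simp only [k]
  rw [Finset.sum_neg_distrib, ← integral_finsetSum _ fun i _ => ip i, ← integral_neg]
  congr 1; funext s
  have := W.eq s 0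
  unfold Lap at this
  rw [← Finset.mul_sum, this]; ring

/-- mean zero -/
theorem Wave.mean [IsProbabilityMeasure P] (hτ : ∀ x, MeasurePreserving (τ x) P P)
    {G : S → E d → ℝ} (W : Wave P τ G) : ∫ s, G s 0 ∂P = 0 := by
  have W1 := fun i => W.der hτ i
  have W2 := fun i => (W1 i).der hτ i
  have h : ∀ i, ∫ s, D i (D i (G s)) 0 ∂P = 0 := fun i =>
    div0 hτ (W1 i).sf i (l2_l1 (W1 i).m0 (W1 i).l2) (l2_l1 (W2 i).m0 (W2 i).l2)
  have e : ∀ s, G s 0 = -∑ i, D i (D i (G s)) 0 := fun s => by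
    have := W.eq s 0
    unfold Lap at this
    rw [this]; ring
  simp only [e]
  rw [integral_neg, integral_finsetSum _ fun i _ => l2_l1 (W2 i).m0 (W2 i).l2]
  simp [h]

end

end Pool.Agent.Y139.SW
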