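import Pool.Agent.Y139.SW.B
import Pool.Agent.Y139.PD.G

/-!
Project SW (helper139): the main inequality for stationary waves.
-/

set_option autoImplicit false
open MeasureTheory Filter Topology
open scoped ContDiff ENNReal

namespace Pool.Agent.Y139.SW

open Pool.Agent.TH421.AC (Pr Pr_d Pr_sm)

noncomputable section

lemma pw {n : ℕ} (a : Fin n → ℝ) (h : Fin n → Fin n → ℝ) {f p g J r Γ v : ℝ} (g0 : 0 ≤ g)
    (p0 : 0 ≤ p) (pJ : p ≤ J) (r0 : 0 < r) (tr : ∑ i, h i i = -f) (hΓ : Γ = ∑ i, a i ^ 2)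
    (hv : v = 1 + 1 / r ^ 2 * Γ) :
    p * f ≤ r ^ 2 * g + J / r * (1 / 4 * (f ^ 2 + Γ) + 13 / 40 * (Γ + ∑ i, ∑ j, h i j ^ 2)) -
      ∑ i, (g * a i * (a i * v⁻¹) +
        p * (h i i * v⁻¹ + a i * (-(1 / r ^ 2 * ∑ j, 2 * a j * h i j) / v ^ 2))) := by
  have Γ0 : 0 ≤ Γ := by rw [hΓ]; exact Finset.sum_nonneg fun i _ => sq_nonneg _
  obtain ⟨x, hx⟩ : ∃ x, x = √Γ / r := ⟨_, rfl⟩
  have x0 : 0 ≤ x := by rw [hx]; positivity
  have xr : x * r = √Γ := by rw [hx]; field_simp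
  have Γx : Γ = r ^ 2 * x ^ 2 := by
    have := Real.sq_sqrt Γ0
    rw [← xr] at this
    rw [← this]; ring
  have vx : v = 1 + x ^ 2 := by
    rw [hv, Γx]; field_simp
  have v0 : 0 < 1 + x ^ 2 := by positivity
  obtain ⟨T, hT⟩ : ∃ T, T = ∑ i, a i * ∑ j, a j * h i j := ⟨_, rfl⟩
  obtain ⟨H, hH⟩ : ∃ H, H = ∑ i, ∑ j, h i j ^ 2 := ⟨_, rfl⟩
  have H0 : 0 ≤ H := by
    rw [hH]; exact Finset.sum_nonneg fun i _ => Finset.sum_nonneg fun j _ => sq_nonneg _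
  have TT : T ^ 2 ≤ Γ ^ 2 * H := by
    have h1 : T ^ 2 ≤ Γ * ∑ i, (∑ j, a j * h i j) ^ 2 := by
      rw [hT, hΓ]
      exact Finset.sum_mul_sq_le_sq_mul_sq _ _ _
    have h2 : ∑ i, (∑ j, a j * h i j) ^ 2 ≤ Γ * H := by
      rw [hH, Finset.mul_sum]
      refine Finset.sum_le_sum fun i _ => ?_
      rw [hΓ]
      exact Finset.sum_mul_sq_le_sq_mul_sq _ _ _
    calc T ^ 2 ≤ Γ * ∑ i, (∑ j, a j * h i j) ^ 2 := h1
      _ ≤ Γ * (Γ * H) := mul_le_mul_of_nonneg_left h2 Γ0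
      _ = Γ ^ 2 * H := by ring
  have Tb : |T| ≤ Γ * √H := by
    refine abs_le_of_sq_le_sq ?_ (by positivity)
    rw [mul_pow, Real.sq_sqrt H0]
    exact TT
  have e : ∑ i, (g * a i * (a i * v⁻¹) +
        p * (h i i * v⁻¹ + a i * (-(1 / r ^ 2 * ∑ j, 2 * a j * h i j) / v ^ 2))) =
      g * Γ / v + p * (-f / v - 2 / (r ^ 2 * v ^ 2) * T) := by
    have e1 : ∀ i, g * a i * (a i * v⁻¹) +
        p * (h i i * v⁻¹ + a i * (-(1 / r ^ 2 * ∑ j, 2 * a j * h i j) / v ^ 2)) =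
        g / v * a i ^ 2 + p / v * h i i + (-(p * (2 / (r ^ 2 * v ^ 2)))) *
          (a i * ∑ j, a j * h i j) := by
      intro i
      have : ∑ j, 2 * a j * h i j = 2 * ∑ j, a j * h i j := by
        rw [Finset.mul_sum]
        exact Finset.sum_congr rfl fun j _ => by ring
      rw [this]
      have r1 : r ≠ 0 := r0.ne'
      have v1 : v ≠ 0 := by rw [vx]; exact v0.ne'
      field_simp
      ring
    simp only [e1]
    rw [Finset.sum_add_distrib, Finset.sum_add_distrib, ← Finset.mul_sum, ← Finset.mul_sum,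
      ← Finset.mul_sum, tr, ← hΓ, ← hT]
    ring
  rw [e, ← hH, vx]
  have J0 : 0 ≤ J := p0.trans pJ
  -- the three terms
  have t1 : g * Γ / (1 + x ^ 2) ≤ r ^ 2 * g := by
    rw [div_le_iff₀ v0, Γx]
    have : 0 ≤ r ^ 2 * g := by positivity
    nlinarith
  have t2 : p * (f - f / (1 + x ^ 2)) ≤ J / r * (1 / 4 * (f ^ 2 + Γ)) := by
    have e2 : f - f / (1 + x ^ 2) = f * (x * (x / (1 + x ^ 2))) := by
      field_simp; ring
    have e3 : x / (1 + x ^ 2) ≤ 1 / 2 := by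
      rw [div_le_div_iff₀ v0 two_pos]; nlinarith [sq_nonneg (x - 1)]
    have e4 : 0 ≤ x / (1 + x ^ 2) := by positivity
    have e5 : f * (x * (x / (1 + x ^ 2))) ≤ |f| * (x * (1 / 2)) :=
      mul_le_mul (le_abs_self f) (mul_le_mul_of_nonneg_left e3 x0) (by positivity) (abs_nonneg f)
    have e6 : |f| * (x * (1 / 2)) ≤ 1 / r * (1 / 4 * (f ^ 2 + Γ)) := by
      rw [one_div_mul_eq_div, le_div_iff₀ r0, Γx, ← sq_abs f]
      nlinarith [sq_nonneg (|f| - r * x)]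
    have e7 : 0 ≤ 1 / r * (1 / 4 * (f ^ 2 + Γ)) := by positivity
    rw [e2]
    calc p * (f * (x * (x / (1 + x ^ 2)))) ≤ p * (1 / r * (1 / 4 * (f ^ 2 + Γ))) :=
          mul_le_mul_of_nonneg_left (e5.trans e6) p0
      _ ≤ J * (1 / r * (1 / 4 * (f ^ 2 + Γ))) := mul_le_mul_of_nonneg_right pJ e7
      _ = J / r * (1 / 4 * (f ^ 2 + Γ)) := by ring
  have t3 : p * (-(2 / (r ^ 2 * (1 + x ^ 2) ^ 2)) * T) ≤ J / r * (13 / 40 * (Γ + H)) := by
    have e1 : -(2 / (r ^ 2 * (1 + x ^ 2) ^ 2)) * T ≤ 2 / (r ^ 2 * (1 + x ^ 2) ^ 2) * (Γ * √H) := by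
      have : -T ≤ Γ * √H := (neg_le_abs T).trans Tb
      have h2 : 0 ≤ 2 / (r ^ 2 * (1 + x ^ 2) ^ 2) := by positivity
      nlinarith
    have e2 : 2 / (r ^ 2 * (1 + x ^ 2) ^ 2) * (Γ * √H) =
        2 * (x * (x / (1 + x ^ 2) ^ 2)) * √H := by
      rw [Γx]
      field_simp
    have e3 : x / (1 + x ^ 2) ^ 2 ≤ 13 / 40 := by
      rw [div_le_div_iff₀ (by positivity) (by norm_num)]
      nlinarith [sq_nonneg (x ^ 2 - 1 / 3), sq_nonneg (x - 15 / 26)]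
    have e4 : 2 * (x * (x / (1 + x ^ 2) ^ 2)) * √H ≤ 2 * (x * (13 / 40)) * √H := by
      have := Real.sqrt_nonneg H
      gcongr
    have e5 : 2 * (x * (13 / 40)) * √H ≤ 1 / r * (13 / 40 * (Γ + H)) := by
      rw [one_div_mul_eq_div, le_div_iff₀ r0, Γx]
      have := Real.sq_sqrt H0
      nlinarith [sq_nonneg (r * x - √H)]
    have e7 : 0 ≤ 1 / r * (13 / 40 * (Γ + H)) := by positivity
    calc p * (-(2 / (r ^ 2 * (1 + x ^ 2) ^ 2)) * T) ≤ p * (1 / r * (13 / 40 * (Γ + H))) := by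
          refine mul_le_mul_of_nonneg_left ?_ p0
          exact e1.trans (e2.le.trans (e4.trans e5))
      _ ≤ J * (1 / r * (13 / 40 * (Γ + H))) := mul_le_mul_of_nonneg_right pJ e7
      _ = J / r * (13 / 40 * (Γ + H)) := by ring
  have e8 : p * f = p * (f - f / (1 + x ^ 2)) + g * Γ / (1 + x ^ 2) +
      p * (-(2 / (r ^ 2 * (1 + x ^ 2) ^ 2)) * T) -
      (g * Γ / (1 + x ^ 2) + p * (-f / (1 + x ^ 2) - 2 / (r ^ 2 * (1 + x ^ 2) ^ 2) * T)) := by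
    ring
  rw [mul_add (J / r)]
  rw [e8]
  linarith

section

variable {d : ℕ} {S : Type*} [MeasurableSpace S] {P : Measure S} {τ : E d → S → S}

lemma SF.sum {ι : Type*} (t : Finset ι) {f : ι → S → E d → ℝ} (h : ∀ i, SF τ (f i)) :
    SF τ (fun s y => ∑ i ∈ t, f i s y) :=
  ⟨fun y => Finset.measurable_fun_sum t fun i _ => (h i).meas y,
    fun s => ContDiff.sum fun i _ => (h i).smooth s,
    fun x s y => Finset.sum_congr rfl fun i _ => (h i).cov x s y⟩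

/-- the weight -/
def V (r : ℝ) (f : E d → ℝ) (y : E d) : ℝ := 1 + 1 / r ^ 2 * ∑ j, D j f y ^ 2

lemma V_ge (r : ℝ) (f : E d → ℝ) (y : E d) : 1 ≤ V r f y := by
  unfold V
  have : 0 ≤ 1 / r ^ 2 * ∑ j, D j f y ^ 2 :=
    mul_nonneg (by positivity) (Finset.sum_nonneg fun j _ => sq_nonneg _)
  linarith

lemma V_sf {r : ℝ} {G : S → E d → ℝ} (h : SF τ G) : SF τ (fun s y => V r (G s) y) := by
  have h1 : SF τ (fun s y => ∑ j, (fun x : ℝ => x ^ 2) (D j (G s) y)) :=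
    SF.sum Finset.univ fun j => (h.der j).comp (contDiff_id.pow 2)
  exact h1.comp (k := fun x : ℝ => 1 + 1 / r ^ 2 * x)
    (contDiff_const.add (contDiff_const.mul contDiff_id))

lemma V_sm {r : ℝ} {f : E d → ℝ} (h : ContDiff ℝ ∞ f) : ContDiff ℝ ∞ (V r f) := by
  unfold V
  exact contDiff_const.add (contDiff_const.mul (ContDiff.sum fun j _ => (D_sm h j).pow 2))

lemma V_d {r : ℝ} {f : E d → ℝ} (h : ContDiff ℝ ∞ f) (i : Fin d) (y : E d) :
    D i (V r f) y = 1 / r ^ 2 * ∑ j, 2 * D j f y * D i (D j f) y := by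
  have s1 : ∀ j, ContDiff ℝ ∞ (fun y => D j f y ^ 2) := fun j => (D_sm h j).pow 2
  have s2 : ContDiff ℝ ∞ (fun y => ∑ j, D j f y ^ 2) := ContDiff.sum fun j _ => s1 j
  have e1 : D i (V r f) y = 1 / r ^ 2 * D i (fun y => ∑ j, D j f y ^ 2) y := by
    have h1 := D_comp (k := fun x : ℝ => 1 + 1 / r ^ 2 * x)
      (contDiff_const.add (contDiff_const.mul contDiff_id)) s2 i y
    have h2 : deriv (fun x : ℝ => 1 + 1 / r ^ 2 * x) (∑ j, D j f y ^ 2) = 1 / r ^ 2 := by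
      have : HasDerivAt (fun x : ℝ => 1 + 1 / r ^ 2 * x) (1 / r ^ 2) (∑ j, D j f y ^ 2) := by
        have := ((hasDerivAt_id (∑ j, D j f y ^ 2)).const_mul (1 / r ^ 2)).const_add 1
        simpa using this
      exact this.deriv
    rw [h2] at h1
    exact h1
  rw [e1, D_sum Finset.univ s1]
  congr 1
  refine Finset.sum_congr rfl fun j _ => ?_
  have h1 := D_comp (k := fun x : ℝ => x ^ 2) (contDiff_id.pow 2) (D_sm h j) i y
  rw [h1]
  simp

/-- the vector field -/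
def HH (g : ℝ → ℝ) (r : ℝ) (i : Fin d) (f : E d → ℝ) (y : E d) : ℝ :=
  Pr g (f y) * (D i f y * (V r f y)⁻¹)

lemma HH_sf {g : ℝ → ℝ} (sg : ContDiff ℝ ∞ g) {r : ℝ} {G : S → E d → ℝ} (h : SF τ G) (i : Fin d) :
    SF τ (fun s => HH g r i (G s)) :=
  (h.comp (Pr_sm sg)).mul ((h.der i).mul ((V_sf h).inv fun s y =>
    (lt_of_lt_of_le one_pos (V_ge r (G s) y)).ne'))

lemma HH_d {g : ℝ → ℝ} (sg : ContDiff ℝ ∞ g) {r : ℝ} {f : E d → ℝ} (h : ContDiff ℝ ∞ f)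
    (i : Fin d) (y : E d) : D i (HH g r i f) y =
      g (f y) * D i f y * (D i f y * (V r f y)⁻¹) + Pr g (f y) *
        (D i (D i f) y * (V r f y)⁻¹ + D i f y *
          (-(1 / r ^ 2 * ∑ j, 2 * D j f y * D i (D j f) y) / V r f y ^ 2)) := by
  have v0 : ∀ y, V r f y ≠ 0 := fun y => (lt_of_lt_of_le one_pos (V_ge r f y)).ne'
  have s1 := (Pr_sm sg).comp h
  have s2 : ContDiff ℝ ∞ (fun y => (V r f y)⁻¹) := (V_sm h).inv v0
  have s3 := (D_sm h i).mul s2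
  have e1 := D_mul s1 s3 i y
  have e2 := D_mul (D_sm h i) s2 i y
  have e3 := D_comp (Pr_sm sg) h i y
  have e4 := D_inv (V_sm (r := r) h) (v0 y) i
  have e5 : deriv (Pr g) (f y) = g (f y) := (Pr_d sg _).deriv
  rw [V_d h] at e4
  rw [e4] at e2
  rw [e5] at e3
  have e1' : D i (HH g r i f) y = D i (fun w => Pr g (f w)) y * (D i f y * (V r f y)⁻¹) +
      Pr g (f y) * D i (fun w => D i f w * (V r f w)⁻¹) y := e1
  rw [e1', e2, e3]

end

end

end Pool.Agent.Y139.SW
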