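import Pool.Agent.Y139.SW.C

/-!
Project SW (helper139): the quantitative inequality for stationary waves.
-/

set_option autoImplicit false
open MeasureTheory Filter Topology
open scoped ContDiff ENNReal

namespace Pool.Agent.Y139.SW

open Pool.Agent.TH421.AC (Pr Pr_d Pr_sm)

noncomputable section

variable {d : ℕ} {S : Type*} [MeasurableSpace S] {P : Measure S} {τ : E d → S → S}

theorem mainq [IsProbabilityMeasure P] (hτ : ∀ x, MeasurePreserving (τ x) P P)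
    {G : S → E d → ℝ} (W : Wave P τ G) {g : ℝ → ℝ} (sg : ContDiff ℝ ∞ g)
    (cg : HasCompactSupport g) (g0 : ∀ x, 0 ≤ g x) {J : ℝ} (P0 : ∀ x, 0 ≤ Pr g x)
    (PJ : ∀ x, Pr g x ≤ J) {r : ℝ} (r0 : 0 < r) {m : ℝ} (hm : ∫ s, G s 0 ^ 2 ∂P ≤ m) :
    ∫ s, Pr g (G s 0) * G s 0 ∂P ≤ r ^ 2 * (∫ s, g (G s 0) ∂P) + 23 / 20 * J * m / r := by
  have W1 := fun i => W.der hτ i
  have W2 := fun i j => (W1 j).der hτ i
  have J0 : 0 ≤ J := (P0 0).trans (PJ 0)
  obtain ⟨B, hB⟩ := cg.exists_bound_of_continuous sg.continuous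
  have B0 : 0 ≤ B := (norm_nonneg _).trans (hB 0)
  have iG : Integrable (fun s => G s 0) P := l2_l1 W.m0 W.l2
  have i1 : ∀ i, Integrable (fun s => D i (G s) 0) P := fun i => l2_l1 (W1 i).m0 (W1 i).l2
  have i2 : ∀ i j, Integrable (fun s => D i (D j (G s)) 0) P := fun i j =>
    l2_l1 (W2 i j).m0 (W2 i j).l2
  have vinv : ∀ s, 0 ≤ (V r (G s) 0)⁻¹ ∧ (V r (G s) 0)⁻¹ ≤ 1 := fun s => by
    have := V_ge r (G s) 0
    exact ⟨inv_nonneg.2 (by linarith), inv_le_one_of_one_le₀ this⟩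
  have prb : ∀ x, |Pr g x| ≤ J := fun x => by rw [abs_of_nonneg (P0 x)]; exact PJ x
  have iHH : ∀ i, Integrable (fun s => HH g r i (G s) 0) P := fun i => by
    refine Integrable.mono' (((i1 i).abs).const_mul J)
      ((HH_sf sg W.sf i).meas 0).aestronglyMeasurable (ae_of_all _ fun s => ?_)
    show ‖Pr g (G s 0) * (D i (G s) 0 * (V r (G s) 0)⁻¹)‖ ≤ J * |D i (G s) 0|
    rw [Real.norm_eq_abs, abs_mul, abs_mul, abs_of_nonneg (vinv s).1]
    refine mul_le_mul (prb _) ?_ (mul_nonneg (abs_nonneg _) (vinv s).1) J0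
    exact mul_le_of_le_one_right (abs_nonneg _) (vinv s).2
  have iD : ∀ i, Integrable (fun s => D i (HH g r i (G s)) 0) P := fun i => by
    have dom : Integrable (fun s => B * D i (G s) 0 ^ 2 + J * (|D i (D i (G s)) 0| +
        ∑ j, 2 * |D i (D j (G s)) 0|)) P := by
      refine ((W1 i).l2.const_mul B).add ((((i2 i i).abs).add ?_).const_mul J)
      exact integrable_finsetSum _ fun j _ => ((i2 i j).abs).const_mul 2
    refine Integrable.mono' dom
      (((HH_sf sg W.sf i).der i).meas 0).aestronglyMeasurable (ae_of_all _ fun s => ?_)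
    rw [HH_d sg (W.sf.smooth s), Real.norm_eq_abs]
    obtain ⟨v, hv⟩ : ∃ v, v = V r (G s) 0 := ⟨_, rfl⟩
    obtain ⟨w0, w1⟩ := vinv s
    have v1 := V_ge r (G s) 0
    rw [← hv] at w0 w1 v1 ⊢
    have b1 : |g (G s 0) * D i (G s) 0 * (D i (G s) 0 * v⁻¹)| ≤ B * D i (G s) 0 ^ 2 := by
      have : g (G s 0) * D i (G s) 0 * (D i (G s) 0 * v⁻¹) =
        g (G s 0) * (D i (G s) 0 ^ 2 * v⁻¹) := by ring
      rw [this, abs_mul, abs_mul, abs_of_nonneg w0, abs_of_nonneg (sq_nonneg (D i (G s) 0))]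
      refine mul_le_mul (hB _) ?_ (mul_nonneg (sq_nonneg _) w0) B0
      exact mul_le_of_le_one_right (sq_nonneg _) w1
    have b2 : |D i (D i (G s)) 0 * v⁻¹| ≤ |D i (D i (G s)) 0| := by
      rw [abs_mul, abs_of_nonneg w0]
      exact mul_le_of_le_one_right (abs_nonneg _) w1
    have b3 : |D i (G s) 0 * (-(1 / r ^ 2 * ∑ j, 2 * D j (G s) 0 * D i (D j (G s)) 0) / v ^ 2)| ≤
        ∑ j, 2 * |D i (D j (G s)) 0| := by
      have e : D i (G s) 0 * (-(1 / r ^ 2 * ∑ j, 2 * D j (G s) 0 * D i (D j (G s)) 0) / v ^ 2) =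
          ∑ j, (-(2 * (D i (G s) 0 * D j (G s) 0 / (r ^ 2 * v ^ 2)) * D i (D j (G s)) 0)) := by
        rw [Finset.sum_neg_distrib, Finset.mul_sum, ← Finset.sum_neg_distrib, Finset.sum_div,
          Finset.mul_sum, ← Finset.sum_neg_distrib]
        refine Finset.sum_congr rfl fun j _ => ?_
        have r1 : r ≠ 0 := r0.ne'
        have v1 : v ≠ 0 := by linarith
        field_simp
      rw [e]
      refine (Finset.abs_sum_le_sum_abs _ _).trans (Finset.sum_le_sum fun j _ => ?_)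
      rw [abs_neg, abs_mul, abs_mul, abs_two]
      have f1 : |D i (G s) 0 * D j (G s) 0 / (r ^ 2 * v ^ 2)| ≤ 1 := by
        rw [abs_div, abs_of_pos (by positivity : 0 < r ^ 2 * v ^ 2), div_le_one (by positivity)]
        have Γv : ∑ k, D k (G s) 0 ^ 2 = r ^ 2 * (v - 1) := by
          rw [hv]; unfold V
          field_simp
          ring
        have f2 : ∀ k, D k (G s) 0 ^ 2 ≤ r ^ 2 * (v - 1) := fun k => by
          rw [← Γv]
          exact Finset.single_le_sum (f := fun k => D k (G s) 0 ^ 2) (fun k _ => sq_nonneg _)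
            (Finset.mem_univ k)
        have f3 := f2 i
        have f4 := f2 j
        rw [abs_mul]
        have f5 : |D i (G s) 0| * |D j (G s) 0| ≤ r ^ 2 * (v - 1) := by
          rw [← sq_abs] at f3 f4
          nlinarith [sq_nonneg (|D i (G s) 0| - |D j (G s) 0|)]
        have f6 : v - 1 ≤ v ^ 2 := by nlinarith
        have f7 : 0 < r ^ 2 := by positivity
        nlinarith
      calc 2 * |D i (G s) 0 * D j (G s) 0 / (r ^ 2 * v ^ 2)| * |D i (D j (G s)) 0| ≤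
          2 * 1 * |D i (D j (G s)) 0| := by gcongr
        _ = 2 * |D i (D j (G s)) 0| := by ring
    refine (abs_add_le _ _).trans (add_le_add b1 ?_)
    rw [abs_mul]
    exact mul_le_mul (prb _) ((abs_add_le _ _).trans (add_le_add b2 b3)) (abs_nonneg _) J0
  have z : ∀ i, ∫ s, D i (HH g r i (G s)) 0 ∂P = 0 := fun i =>
    div0 hτ (HH_sf sg W.sf i) i (iHH i) (iD i)
  have ig : Integrable (fun s => g (G s 0)) P := by
    refine Integrable.mono' (integrable_const B)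
      (sg.continuous.measurable.comp (W.sf.meas 0)).aestronglyMeasurable (ae_of_all _ fun s => ?_)
    exact hB _
  have iL : Integrable (fun s => Pr g (G s 0) * G s 0) P := by
    refine Integrable.mono' (iG.abs.const_mul J)
      (((Pr_sm sg).continuous.measurable.comp (W.sf.meas 0)).mul (W.sf.meas 0)).aestronglyMeasurable
      (ae_of_all _ fun s => ?_)
    rw [Real.norm_eq_abs, abs_mul]
    exact mul_le_mul_of_nonneg_right (prb _) (abs_nonneg _)
  have iΓ : Integrable (fun s => ∑ i, D i (G s) 0 ^ 2) P :=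
    integrable_finsetSum _ fun i _ => (W1 i).l2
  have iH : Integrable (fun s => ∑ i, ∑ j, D i (D j (G s)) 0 ^ 2) P :=
    integrable_finsetSum _ fun i _ => integrable_finsetSum _ fun j _ => (W2 i j).l2
  have pt : ∀ s, Pr g (G s 0) * G s 0 ≤ (r ^ 2 * g (G s 0) + J / r *
      (1 / 4 * (G s 0 ^ 2 + ∑ i, D i (G s) 0 ^ 2) + 13 / 40 * ((∑ i, D i (G s) 0 ^ 2) +
        ∑ i, ∑ j, D i (D j (G s)) 0 ^ 2))) - ∑ i, D i (HH g r i (G s)) 0 := by
    intro s
    have h1 := pw (fun i => D i (G s) 0) (fun i j => D i (D j (G s)) 0) (f := G s 0)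
      (p := Pr g (G s 0)) (g := g (G s 0)) (J := J) (r := r) (g0 _) (P0 _) (PJ _) r0
      (W.eq s 0) rfl (v := V r (G s) 0) rfl
    have h2 : ∀ i, D i (HH g r i (G s)) 0 = _ := fun i => HH_d sg (W.sf.smooth s) i 0
    simp only [h2]
    exact h1
  have eΓ : ∫ s, ∑ i, D i (G s) 0 ^ 2 ∂P = ∫ s, G s 0 ^ 2 ∂P := by
    rw [integral_finsetSum _ fun i _ => (W1 i).l2]
    exact W.energy hτ
  have eH : ∫ s, ∑ i, ∑ j, D i (D j (G s)) 0 ^ 2 ∂P = ∫ s, G s 0 ^ 2 ∂P := by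
    rw [integral_finsetSum _ fun i _ => integrable_finsetSum _ fun j _ => (W2 i j).l2]
    have : ∀ i, ∫ s, ∑ j, D i (D j (G s)) 0 ^ 2 ∂P = ∑ j, ∫ s, D i (D j (G s)) 0 ^ 2 ∂P :=
      fun i => integral_finsetSum _ fun j _ => (W2 i j).l2
    simp only [this]
    rw [Finset.sum_comm]
    have : ∀ j, ∑ i, ∫ s, D i (D j (G s)) 0 ^ 2 ∂P = ∫ s, D j (G s) 0 ^ 2 ∂P :=
      fun j => (W1 j).energy hτ
    simp only [this]
    exact W.energy hτ
  have ia : Integrable (fun s => 1 / 4 * (G s 0 ^ 2 + ∑ i, D i (G s) 0 ^ 2)) P :=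
    (W.l2.add iΓ).const_mul (1 / 4)
  have ib : Integrable (fun s => 13 / 40 * ((∑ i, D i (G s) 0 ^ 2) +
        ∑ i, ∑ j, D i (D j (G s)) 0 ^ 2)) P := (iΓ.add iH).const_mul (13 / 40)
  obtain ⟨A, hA⟩ : ∃ A : S → ℝ, A = fun s => r ^ 2 * g (G s 0) := ⟨_, rfl⟩
  obtain ⟨C1, hC1⟩ : ∃ C1 : S → ℝ, C1 = fun s => 1 / 4 * (G s 0 ^ 2 + ∑ i, D i (G s) 0 ^ 2) :=
    ⟨_, rfl⟩
  obtain ⟨C2, hC2⟩ : ∃ C2 : S → ℝ, C2 = fun s => 13 / 40 * ((∑ i, D i (G s) 0 ^ 2) +
        ∑ i, ∑ j, D i (D j (G s)) 0 ^ 2) := ⟨_, rfl⟩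
  obtain ⟨Z, hZ⟩ : ∃ Z : S → ℝ, Z = fun s => ∑ i, D i (HH g r i (G s)) 0 := ⟨_, rfl⟩
  have iA : Integrable A P := by rw [hA]; exact ig.const_mul _
  have iC1 : Integrable C1 P := by rw [hC1]; exact ia
  have iC2 : Integrable C2 P := by rw [hC2]; exact ib
  have iC : Integrable (fun s => J / r * (C1 s + C2 s)) P := (iC1.add iC2).const_mul (J / r)
  have iZ : Integrable Z P := by
    rw [hZ]; exact integrable_finsetSum _ fun i _ => iD i
  have iAC : Integrable (fun s => A s + J / r * (C1 s + C2 s)) P := iA.add iC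
  have fin : ∫ s, Pr g (G s 0) * G s 0 ∂P ≤ ∫ s, (A s + J / r * (C1 s + C2 s) - Z s) ∂P := by
    refine integral_mono iL (iAC.sub iZ) fun s => ?_
    have := pt s
    show Pr g (G s 0) * G s 0 ≤ A s + J / r * (C1 s + C2 s) - Z s
    rw [hA, hC1, hC2, hZ]
    exact this
  refine fin.trans ?_
  have eA : ∫ s, A s ∂P = r ^ 2 * ∫ s, g (G s 0) ∂P := by rw [hA]; exact integral_const_mul _ _
  have eC1 : ∫ s, C1 s ∂P = 1 / 4 * ((∫ s, G s 0 ^ 2 ∂P) + ∫ s, G s 0 ^ 2 ∂P) := by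
    rw [hC1, integral_const_mul, integral_add W.l2 iΓ, eΓ]
  have eC2 : ∫ s, C2 s ∂P = 13 / 40 * ((∫ s, G s 0 ^ 2 ∂P) + ∫ s, G s 0 ^ 2 ∂P) := by
    rw [hC2, integral_const_mul, integral_add iΓ iH, eΓ, eH]
  have eZ : ∫ s, Z s ∂P = 0 := by
    rw [hZ, integral_finsetSum _ fun i _ => iD i]
    simp [z]
  have e : ∫ s, (A s + J / r * (C1 s + C2 s) - Z s) ∂P =
      r ^ 2 * (∫ s, g (G s 0) ∂P) + J / r * (23 / 20 * ∫ s, G s 0 ^ 2 ∂P) := by
    rw [integral_sub iAC iZ, integral_add iA iC, integral_const_mul, integral_add iC1 iC2,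
      eA, eC1, eC2, eZ]
    ring
  rw [e]
  have : J / r * (23 / 20 * ∫ s, G s 0 ^ 2 ∂P) ≤ 23 / 20 * J * m / r := by
    have h1 : J / r * (23 / 20 * ∫ s, G s 0 ^ 2 ∂P) ≤ J / r * (23 / 20 * m) :=
      mul_le_mul_of_nonneg_left (by linarith) (by positivity)
    refine h1.trans (le_of_eq ?_)
    ring
  linarith

end

end Pool.Agent.Y139.SW
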