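import Pool.Agent.Y139.SW.F

/-!
Project SW (helper139): the law of a stationary wave at a point.
-/

set_option autoImplicit false
open MeasureTheory Filter Topology
open scoped ContDiff ENNReal

namespace Pool.Agent.Y139.SW

open Pool.Agent.TH421.AC (Pr Pr_d Pr_sm)
open Pool.Agent.Y139.PD (Pr_facts M1 refl_ap refl_Ici shape vol_neg)

noncomputable section

variable {d : ℕ} {S : Type*} [MeasurableSpace S] {P : Measure S} {τ : E d → S → S}

/-- the law of the field at the origin -/
def nu (P : Measure S) (G : S → E d → ℝ) : Measure ℝ := P.map (fun s => G s 0)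

lemma nu_ap {G : S → E d → ℝ} (h : SF τ G) {A : Set ℝ} (mA : MeasurableSet A) :
    nu P G A = P {s | G s 0 ∈ A} := Measure.map_apply (h.meas 0) mA

lemma nu_prob [IsProbabilityMeasure P] {G : S → E d → ℝ} (h : SF τ G) :
    IsProbabilityMeasure (nu P G) := Measure.isProbabilityMeasure_map (h.meas 0).aemeasurable

lemma setq [IsProbabilityMeasure P] (hτ : ∀ x, MeasurePreserving (τ x) P P)
    {G : S → E d → ℝ} (W : Wave P τ G) {m : ℝ} (m0 : 0 < m) (hm : ∫ s, G s 0 ^ 2 ∂P ≤ m) {b : ℝ}
    (b0 : 0 < b) {A : Set ℝ} (hA : A ⊆ Set.Ioo 0 b) :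
    (volume A).toReal * (b * (nu P G (Set.Ici b)).toReal) ^ 3 ≤
      9 * m ^ 2 * (nu P G A).toReal := by
  have hp := nu_prob (P := P) W.sf
  obtain ⟨a, ha⟩ : ∃ a, a = b * (nu P G (Set.Ici b)).toReal := ⟨_, rfl⟩
  rw [← ha]
  have a0 : 0 ≤ a := by rw [ha]; positivity
  rcases a0.eq_or_lt with h | a1
  · rw [← h]; simp only [ne_eq, OfNat.ofNat_ne_zero, not_false_eq_true, zero_pow, mul_zero]
    positivity
  have mI : MeasurableSet {s | G s 0 ∈ Set.Ici b} := W.sf.meas 0 measurableSet_Ici
  have key : ∀ g : ℝ → ℝ, ContDiff ℝ ∞ g → HasCompactSupport g → tsupport g ⊆ Set.Ioo 0 b →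
      (∀ x, 0 ≤ g x) → a ^ 3 / (9 * m ^ 2) * ∫ x, g x ≤ ∫ x, g x ∂(nu P G) := by
    intro g sg cg tg g0
    obtain ⟨P0, PJ, P3, P4⟩ := Pr_facts sg g0 tg cg
    obtain ⟨J, hJ⟩ : ∃ J, J = ∫ t, g t := ⟨_, rfl⟩
    rw [← hJ] at PJ P4 ⊢
    have J0 : 0 ≤ J := (P0 0).trans (PJ 0)
    have eg : ∫ x, g x ∂(nu P G) = ∫ s, g (G s 0) ∂P :=
      integral_map (W.sf.meas 0).aemeasurable sg.continuous.aestronglyMeasurable
    rw [eg]
    have iL : Integrable (fun s => Pr g (G s 0) * G s 0) P := by
      refine Integrable.mono' ((l2_l1 W.m0 W.l2).abs.const_mul J)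
        (((Pr_sm sg).continuous.measurable.comp (W.sf.meas 0)).mul
          (W.sf.meas 0)).aestronglyMeasurable (ae_of_all _ fun s => ?_)
      rw [Real.norm_eq_abs, abs_mul, abs_of_nonneg (P0 _)]
      exact mul_le_mul_of_nonneg_right (PJ _) (abs_nonneg _)
    have low : J * a ≤ ∫ s, Pr g (G s 0) * G s 0 ∂P := by
      have e1 : J * a = ∫ s, {s | G s 0 ∈ Set.Ici b}.indicator (fun _ => J * b) s ∂P := by
        rw [integral_indicator mI, setIntegral_const, smul_eq_mul, ha,
          nu_ap W.sf measurableSet_Ici]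
        show _ = P.real _ * (J * b)
        unfold Measure.real
        ring
      rw [e1]
      refine integral_mono ((integrable_const (J * b)).indicator mI) iL fun s => ?_
      by_cases h : s ∈ {s | G s 0 ∈ Set.Ici b}
      · rw [Set.indicator_of_mem h]
        have h1 : b ≤ G s 0 := h
        show J * b ≤ Pr g (G s 0) * G s 0
        rw [P4 _ b0 h1]
        exact mul_le_mul_of_nonneg_left h1 J0
      · rw [Set.indicator_of_notMem h]
        show 0 ≤ Pr g (G s 0) * G s 0
        rcases le_total (G s 0) 0 with h2 | h2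
        · rw [P3 _ h2, zero_mul]
        · exact mul_nonneg (P0 _) h2
    have q := mainq hτ W sg cg g0 P0 PJ (r := 69 / 40 * m / a) (by positivity) hm
    obtain ⟨p, hp⟩ : ∃ p, p = ∫ s, g (G s 0) ∂P := ⟨_, rfl⟩
    rw [← hp] at q ⊢
    have p0 : 0 ≤ p := by rw [hp]; exact integral_nonneg fun s => g0 _
    have q1 : J * a ≤ (69 / 40 * m / a) ^ 2 * p + 23 / 20 * J * m / (69 / 40 * m / a) :=
      low.trans q
    have e2 : 23 / 20 * J * m / (69 / 40 * m / a) = 2 / 3 * (J * a) := by
      field_simp; ring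
    have e3 : (69 / 40 * m / a) ^ 2 * p = (69 / 40) ^ 2 * m ^ 2 * p / a ^ 2 := by
      field_simp
    rw [e2, e3] at q1
    have q2 : J * a / 3 ≤ (69 / 40) ^ 2 * m ^ 2 * p / a ^ 2 := by linarith
    rw [le_div_iff₀ (by positivity)] at q2
    rw [div_mul_eq_mul_div, div_le_iff₀ (by positivity)]
    have q3 : 0 ≤ m ^ 2 * p := by positivity
    nlinarith
  have h1 := M1 (nu P G) isOpen_Ioo (c := a ^ 3 / (9 * m ^ 2)) (by positivity) key A hA
  have fin : volume A ≠ ⊤ := ne_top_of_le_ne_top (by simp) (measure_mono hA :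
    volume A ≤ volume (Set.Ioo 0 b))
  have h2 := ENNReal.toReal_mono (measure_ne_top (nu P G) A) h1
  rw [ENNReal.toReal_mul, ENNReal.toReal_ofReal (by positivity)] at h2
  rw [div_mul_eq_mul_div, div_le_iff₀ (by positivity)] at h2
  linarith

lemma Wave.neg {G : S → E d → ℝ} (W : Wave P τ G) : Wave P τ (fun s y => -G s y) := by
  refine ⟨W.sf.neg, fun s y => ?_, ?_⟩
  · have h1 : ∀ (f : E d → ℝ) (i : Fin d), D i (fun y => -f y) = fun y => -D i f y := by
      intro f i
      funext y
      show fderiv ℝ (fun y => -f y) y _ = -fderiv ℝ f y _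
      rw [fderiv_fun_neg]; rfl
    have := W.eq s y
    unfold Lap at this ⊢
    simp only [h1]
    rw [Finset.sum_neg_distrib, this]
  · simp only [neg_sq]; exact W.l2

lemma nu_neg {G : S → E d → ℝ} (h : SF τ G) : nu P (fun s y => -G s y) = Pool.Agent.Y139.PD.refl (nu P G) := by
  unfold nu Pool.Agent.Y139.PD.refl
  rw [Measure.map_map (MeasurableEquiv.neg ℝ).measurable (h.meas 0)]
  rfl

/-- primitives are bounded by the total integral -/
lemma Pr_abs {g : ℝ → ℝ} (sg : ContDiff ℝ ∞ g) (cg : HasCompactSupport g) (g0 : ∀ x, 0 ≤ g x)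
    (x : ℝ) : |Pr g x| ≤ ∫ t, g t := by
  have ig : Integrable g := sg.continuous.integrable_of_hasCompactSupport cg
  unfold Pr
  rcases le_total 0 x with h | h
  · rw [intervalIntegral.integral_of_le h, abs_of_nonneg (integral_nonneg g0)]
    exact setIntegral_le_integral ig (ae_of_all _ g0)
  · rw [intervalIntegral.integral_symm, abs_neg, intervalIntegral.integral_of_le h,
      abs_of_nonneg (integral_nonneg g0)]
    exact setIntegral_le_integral ig (ae_of_all _ g0)

lemma at_nn (x : ℝ) : 0 ≤ x * Real.arctan x := by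
  rcases le_total 0 x with h | h
  · exact mul_nonneg h (Real.arctan_nonneg.2 h)
  · exact mul_nonneg_of_nonpos_of_nonpos h (by
      have := Real.arctan_nonneg.2 (neg_nonneg.2 h)
      rw [Real.arctan_neg] at this
      linarith)

lemma at_le (x : ℝ) : |Real.arctan x| ≤ 2 := by
  have h1 := Real.arctan_lt_pi_div_two x
  have h2 := Real.neg_pi_div_two_lt_arctan x
  have h3 := Real.pi_le_four
  rw [abs_le]; constructor <;> linarith

/-- on the event that the value lies in a null set the derivative vanishes -/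
theorem alpha [IsProbabilityMeasure P] (hτ : ∀ x, MeasurePreserving (τ x) P P)
    {G : S → E d → ℝ} (h : SF τ G) (i : Fin d) (i1 : Integrable (fun s => D i (G s) 0) P)
    (i2 : Integrable (fun s => D i (D i (G s)) 0) P) {N : Set ℝ} (mN : MeasurableSet N)
    (hN : volume N = 0) : ∀ᵐ s ∂P, G s 0 ∈ N → D i (G s) 0 = 0 := by
  obtain ⟨w, hw⟩ : ∃ w : S → ℝ, w = fun s => D i (G s) 0 * Real.arctan (D i (G s) 0) := ⟨_, rfl⟩
  have mw : Measurable w := by
    rw [hw]
    exact ((h.der i).meas 0).mul (Real.measurable_arctan.comp ((h.der i).meas 0))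
  have w0 : ∀ s, 0 ≤ w s := fun s => by rw [hw]; exact at_nn _
  have iw : Integrable w P := by
    refine Integrable.mono' (i1.abs.const_mul 2) mw.aestronglyMeasurable (ae_of_all _ fun s => ?_)
    rw [hw]
    show ‖D i (G s) 0 * Real.arctan (D i (G s) 0)‖ ≤ 2 * |D i (G s) 0|
    rw [Real.norm_eq_abs, abs_mul, mul_comm]
    exact mul_le_mul_of_nonneg_right (at_le _) (abs_nonneg _)
  obtain ⟨K, hK⟩ : ∃ K, K = ∫ s, |D i (D i (G s)) 0| ∂P := ⟨_, rfl⟩
  have K0 : 0 ≤ K := by rw [hK]; exact integral_nonneg fun s => abs_nonneg _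
  have key : ∀ g : ℝ → ℝ, ContDiff ℝ ∞ g → HasCompactSupport g → (∀ x, 0 ≤ g x) →
      ∫ s, g (G s 0) * w s ∂P ≤ K * ∫ x, g x := by
    intro g sg cg g0
    obtain ⟨B, hB⟩ := cg.exists_bound_of_continuous sg.continuous
    have PJ := Pr_abs sg cg g0
    obtain ⟨J, hJ⟩ : ∃ J, J = ∫ t, g t := ⟨_, rfl⟩
    rw [← hJ] at PJ ⊢
    have J0 : 0 ≤ J := (abs_nonneg _).trans (PJ 0)
    have hf : SF τ (fun s y => Pr g (G s y) * Real.arctan (D i (G s) y)) :=
      (h.comp (Pr_sm sg)).mul ((h.der i).comp Real.contDiff_arctan)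
    have ed : ∀ s, D i (fun y => Pr g (G s y) * Real.arctan (D i (G s) y)) 0 =
        g (G s 0) * w s + Pr g (G s 0) * (1 / (1 + D i (G s) 0 ^ 2) * D i (D i (G s)) 0) := by
      intro s
      have u := h.smooth s
      have e1 : D i (fun y => Pr g (G s y) * Real.arctan (D i (G s) y)) 0 =
          D i (fun y => Pr g (G s y)) 0 * Real.arctan (D i (G s) 0) +
          Pr g (G s 0) * D i (fun y => Real.arctan (D i (G s) y)) 0 :=
        D_mul ((Pr_sm sg).comp u) (Real.contDiff_arctan.comp (D_sm u i)) i 0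
      rw [e1, D_comp (Pr_sm sg) u i 0, D_comp Real.contDiff_arctan (D_sm u i) i 0,
        (Pr_d sg _).deriv, Real.deriv_arctan, hw]
      ring
    have ia : Integrable (fun s => Pr g (G s 0) * Real.arctan (D i (G s) 0)) P := by
      refine Integrable.mono' (integrable_const (J * 2)) (hf.meas 0).aestronglyMeasurable
        (ae_of_all _ fun s => ?_)
      rw [Real.norm_eq_abs, abs_mul]
      exact mul_le_mul (PJ _) (at_le _) (abs_nonneg _) J0
    have ib : Integrable (fun s => g (G s 0) * w s) P := by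
      refine Integrable.mono' (iw.abs.const_mul B)
        ((sg.continuous.measurable.comp (h.meas 0)).mul mw).aestronglyMeasurable
        (ae_of_all _ fun s => ?_)
      rw [Real.norm_eq_abs, abs_mul]
      exact mul_le_mul_of_nonneg_right (hB _) (abs_nonneg _)
    have bd : ∀ s, |Pr g (G s 0) * (1 / (1 + D i (G s) 0 ^ 2) * D i (D i (G s)) 0)| ≤
        J * |D i (D i (G s)) 0| := by
      intro s
      rw [abs_mul, abs_mul]
      refine mul_le_mul (PJ _) ?_ (by positivity) J0
      have : |1 / (1 + D i (G s) 0 ^ 2)| ≤ 1 := by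
        rw [abs_of_nonneg (by positivity), div_le_one (by positivity)]
        nlinarith [sq_nonneg (D i (G s) 0)]
      exact mul_le_of_le_one_left (abs_nonneg _) this
    have ic : Integrable (fun s => Pr g (G s 0) *
        (1 / (1 + D i (G s) 0 ^ 2) * D i (D i (G s)) 0)) P := by
      refine Integrable.mono' (i2.abs.const_mul J) ?_ (ae_of_all _ fun s => bd s)
      have m1 := (Pr_sm sg).continuous.measurable.comp (h.meas 0)
      have m2 := (h.der i).meas 0
      have m3 := ((h.der i).der i).meas 0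
      exact (m1.mul ((measurable_const.div (measurable_const.add (m2.pow_const 2))).mul
        m3)).aestronglyMeasurable
    have z := div0 hτ hf i ia (by simp only [ed]; exact ib.add ic)
    simp only [ed] at z
    rw [integral_add ib ic] at z
    have up : -∫ s, Pr g (G s 0) * (1 / (1 + D i (G s) 0 ^ 2) * D i (D i (G s)) 0) ∂P ≤
        K * J := by
      rw [← integral_neg, hK, mul_comm, ← integral_const_mul]
      exact integral_mono ic.neg (i2.abs.const_mul J) fun s => (neg_le_abs _).trans (bd s)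
    linarith
  -- the measure
  obtain ⟨κ, hκ⟩ : ∃ κ : Measure ℝ, κ = (P.withDensity fun s => ENNReal.ofReal (w s)).map
      (fun s => G s 0) := ⟨_, rfl⟩
  have fw : IsFiniteMeasure (P.withDensity fun s => ENNReal.ofReal (w s)) :=
    isFiniteMeasure_withDensity_ofReal iw.2
  have fκ : IsFiniteMeasure κ := by rw [hκ]; infer_instance
  have eκ : ∀ g : ℝ → ℝ, Continuous g → ∫ x, g x ∂κ = ∫ s, g (G s 0) * w s ∂P := by
    intro g cg
    rw [hκ, integral_map (h.meas 0).aemeasurable cg.aestronglyMeasurable,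
      integral_withDensity_eq_integral_toReal_smul₀ mw.ennreal_ofReal.aemeasurable
        (ae_of_all _ fun _ => ENNReal.ofReal_lt_top)]
    congr 1; funext s
    rw [ENNReal.toReal_ofReal (w0 s), smul_eq_mul, mul_comm]
  have op : ∀ U : Set ℝ, IsOpen U → volume U ≠ ⊤ → κ U ≤ ENNReal.ofReal K * volume U := by
    intro U hU fU
    rw [hU.measure_eq_iSup_isCompact]
    refine iSup_le fun C => iSup_le fun hCU => iSup_le fun hC => ?_
    obtain ⟨g, sg, cg, tg, gC, g0, g1⟩ :=
      Pool.Agent.Results.MP_a52643_an.AbsoluteContinuity.exists_cutR hU hC hCU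
    have h1 := key g sg cg g0
    rw [← eκ g sg.continuous] at h1
    have ig : Integrable g := sg.continuous.integrable_of_hasCompactSupport cg
    have ig' : Integrable g κ := sg.continuous.integrable_of_hasCompactSupport cg
    have h2 : (κ C).toReal ≤ ∫ x, g x ∂κ := by
      have e : (κ C).toReal = ∫ x in C, g x ∂κ := by
        have : ∫ x in C, g x ∂κ = ∫ x in C, (1 : ℝ) ∂κ :=
          setIntegral_congr_fun hC.measurableSet fun x hx => gC x hx
        rw [this, setIntegral_const, smul_eq_mul, mul_one]; rfl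
      rw [e]
      exact setIntegral_le_integral ig' (ae_of_all _ g0)
    have h3 : ∫ x, g x ≤ (volume U).toReal := by
      have e1 : ∫ x, g x = ∫ x in U, g x :=
        (setIntegral_eq_integral_of_forall_compl_eq_zero fun x hx =>
          image_eq_zero_of_notMem_tsupport fun h => hx (tg h)).symm
      rw [e1]
      have e2 : ∫ x in U, g x ≤ ∫ x in U, (1 : ℝ) :=
        setIntegral_mono_on ig.integrableOn (integrableOn_const fU)
          hU.measurableSet fun x _ => g1 x
      refine e2.trans (le_of_eq ?_)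
      rw [setIntegral_const, smul_eq_mul, mul_one]; rfl
    have h4 : (κ C).toReal ≤ K * (volume U).toReal :=
      h2.trans (h1.trans (mul_le_mul_of_nonneg_left h3 K0))
    have h5 := ENNReal.ofReal_le_ofReal h4
    rw [ENNReal.ofReal_mul K0, ENNReal.ofReal_toReal fU,
      ENNReal.ofReal_toReal (measure_ne_top κ C)] at h5
    exact h5
  have zN : κ N = 0 := by
    by_contra hc
    have hc' : 0 < κ N := pos_iff_ne_zero.2 hc
    have small : ∀ ε : ℝ≥0∞, 0 < ε → ε ≠ ⊤ → κ N ≤ ENNReal.ofReal K * ε := by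
      intro ε ε0 εt
      obtain ⟨U, hNU, hU, hv⟩ := N.exists_isOpen_lt_of_lt ε (by rw [hN]; exact ε0)
      exact (measure_mono hNU).trans ((op U hU (ne_top_of_lt hv)).trans
        (mul_le_mul_right hv.le _))
    have := small (κ N / (ENNReal.ofReal K + 1) / 2)
      (ENNReal.div_pos (ENNReal.div_pos hc (by simp)).ne' (by simp))
      (by
        refine ne_of_lt (ENNReal.div_lt_top ?_ (by simp))
        exact (ENNReal.div_lt_top (measure_ne_top κ N) (by simp)).ne)
    have r := ENNReal.toReal_mono (ENNReal.mul_ne_top (by simp) (by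
        refine ne_of_lt (ENNReal.div_lt_top ?_ (by simp))
        exact (ENNReal.div_lt_top (measure_ne_top κ N) (by simp)).ne)) this
    rw [ENNReal.toReal_mul, ENNReal.toReal_div, ENNReal.toReal_div, ENNReal.toReal_add (by simp)
      (by simp), ENNReal.toReal_ofReal K0] at r
    have k0 : 0 < (κ N).toReal := ENNReal.toReal_pos hc (measure_ne_top κ N)
    have e : K * ((κ N).toReal / (K + 1) / 2) < (κ N).toReal := by
      have : K * ((κ N).toReal / (K + 1) / 2) = (κ N).toReal * (K / (2 * (K + 1))) := by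
        field_simp
      rw [this]
      have : K / (2 * (K + 1)) < 1 := by rw [div_lt_one (by positivity)]; linarith
      nlinarith
    simp only [ENNReal.toReal_one, ENNReal.toReal_ofNat] at r
    linarith
  rw [hκ, Measure.map_apply (h.meas 0) mN, withDensity_apply_eq_zero
    mw.ennreal_ofReal] at zN
  rw [ae_iff]
  refine measure_mono_null (fun s hs => ?_) zN
  simp only [Set.mem_ofPred_eq, Classical.not_imp] at hs
  refine ⟨?_, hs.1⟩
  show ENNReal.ofReal (w s) ≠ 0
  have : 0 < w s := by
    refine lt_of_le_of_ne (w0 s) fun he => hs.2 ?_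
    rw [hw] at he
    rcases mul_eq_zero.1 he.symm with h1 | h1
    · exact h1
    · exact Real.arctan_eq_zero_iff.1 h1
  exact (ENNReal.ofReal_pos.2 this).ne'

end

end Pool.Agent.Y139.SW
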