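import Pool.Agent.Y139.SW.H
import Pool.Agent.Y139.PD.P

/-!
Project SW (helper139): the law of a stationary wave at a point, final form.
-/

set_option autoImplicit false
open MeasureTheory Filter Topology
open scoped ContDiff ENNReal

namespace Pool.Agent.Y139.SW

open Pool.Agent.Y139.PD (refl_ap refl_Ici shape vol_neg Bey Bey_pos Bey_neg)

noncomputable section

section

variable {d : ℕ} {S : Type*} [MeasurableSpace S] {P : Measure S} {τ : E d → S → S}

/-- absolute continuity off zero -/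
theorem ac [IsProbabilityMeasure P] (hτ : ∀ x, MeasurePreserving (τ x) P P)
    {G : S → E d → ℝ} (W : Wave P τ G) : (nu P G).restrict {0}ᶜ ≪ volume := by
  have W1 := fun i => W.der hτ i
  have W2 := fun i => (W1 i).der hτ i
  have W3 := fun i => (W2 i).der hτ i
  have i1 : ∀ i, Integrable (fun s => D i (G s) 0) P := fun i => l2_l1 (W1 i).m0 (W1 i).l2
  have i2 : ∀ i, Integrable (fun s => D i (D i (G s)) 0) P := fun i =>
    l2_l1 (W2 i).m0 (W2 i).l2
  have i3 : ∀ i, Integrable (fun s => D i (D i (D i (G s))) 0) P := fun i =>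
    l2_l1 (W3 i).m0 (W3 i).l2
  refine Measure.AbsolutelyContinuous.mk fun N mN hN => ?_
  rw [Measure.restrict_apply mN, nu_ap W.sf (mN.inter (measurableSet_singleton 0).compl)]
  have a1 : ∀ᵐ s ∂P, ∀ i, G s 0 ∈ N → D i (G s) 0 = 0 :=
    ae_all_iff.2 fun i => alpha hτ W.sf i (i1 i) (i2 i) mN hN
  have a2 : ∀ᵐ s ∂P, ∀ i, D i (G s) 0 ∈ ({0} : Set ℝ) → D i (D i (G s)) 0 = 0 :=
    ae_all_iff.2 fun i => alpha hτ (W1 i).sf i (i2 i) (i3 i) (measurableSet_singleton 0) (by simp)
  have a3 : ∀ᵐ s ∂P, ¬ (G s 0 ∈ N ∩ {0}ᶜ) := by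
    filter_upwards [a1, a2] with s h1 h2 h3
    refine h3.2 ?_
    have e := W.eq s 0
    unfold Lap at e
    have : ∑ i, D i (D i (G s)) 0 = 0 :=
      Finset.sum_eq_zero fun i _ => h2 i (h1 i h3.1)
    rw [this] at e
    show G s 0 = 0
    linarith
  rw [ae_iff] at a3
  simpa using a3

lemma bey_e {ν : Measure ℝ} {b : ℝ} (hb : b < 0) :
    (Pool.Agent.Y139.PD.refl ν) (Set.Ici (-b)) = ν (Bey b) := by
  rw [refl_Ici, neg_neg, Bey_neg hb]

/-- the theorem for measure preserving maps -/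
theorem fin1 [IsProbabilityMeasure P] (hτ : ∀ x, MeasurePreserving (τ x) P P)
    {G : S → E d → ℝ} (W : Wave P τ G) :
    (∀ (b : ℝ) (A : Set ℝ), A ⊆ Set.uIoo 0 b →
      (volume A).toReal * (|b| * (nu P G (Bey b)).toReal) ^ 3 ≤
        9 * (∫ s, G s 0 ^ 2 ∂P) ^ 2 * (nu P G A).toReal) ∧
    (nu P G {0} = 1 ∨ ∃ J : Set ℝ, IsOpen J ∧ J.OrdConnected ∧ (0 : ℝ) ∈ J ∧
      (nu P G).restrict {0}ᶜ ≪ volume.restrict J ∧
        volume.restrict J ≪ (nu P G).restrict {0}ᶜ) := by
  have hp := nu_prob (P := P) W.sf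
  obtain ⟨M, hM⟩ : ∃ M, M = ∫ s, G s 0 ^ 2 ∂P := ⟨_, rfl⟩
  have M0 : 0 ≤ M := by rw [hM]; exact integral_nonneg fun s => sq_nonneg _
  rw [← hM]
  have lim : ∀ (x y : ℝ), (∀ m, M < m → x ≤ 9 * m ^ 2 * y) → x ≤ 9 * M ^ 2 * y := by
    intro x y h
    have t : Tendsto (fun m : ℝ => 9 * m ^ 2 * y) (𝓝[>] M) (𝓝 (9 * M ^ 2 * y)) := by
      have : Continuous fun m : ℝ => 9 * m ^ 2 * y := by fun_prop
      exact this.continuousAt.tendsto.mono_left nhdsWithin_le_nhds
    exact ge_of_tendsto t (by filter_upwards [self_mem_nhdsWithin] with m hm using h m hm)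
  have pos : ∀ b, 0 < b → ∀ A, A ⊆ Set.Ioo 0 b →
      (volume A).toReal * (b * (nu P G (Set.Ici b)).toReal) ^ 3 ≤
        9 * M ^ 2 * (nu P G A).toReal := fun b b0 A hA =>
    lim _ _ fun m hm => setq hτ W (M0.trans_lt hm) (by rw [← hM]; exact hm.le) b0 hA
  have neg : ∀ b, 0 < b → ∀ A, A ⊆ Set.Ioo 0 b →
      (volume A).toReal * (b * (Pool.Agent.Y139.PD.refl (nu P G) (Set.Ici b)).toReal) ^ 3 ≤
        9 * M ^ 2 * (Pool.Agent.Y139.PD.refl (nu P G) A).toReal := fun b b0 A hA =>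
    lim _ _ fun m hm => by
      have := setq hτ W.neg (M0.trans_lt hm) (by
        simp only [neg_sq]; rw [← hM]; exact hm.le) b0 hA
      rw [nu_neg W.sf] at this
      exact this
  have ex : Integrable (fun x => x) (nu P G) :=
    (integrable_map_measure continuous_id.aestronglyMeasurable
      (W.sf.meas 0).aemeasurable).2 (l2_l1 W.m0 W.l2)
  have ez : ∫ x, x ∂(nu P G) = 0 := by
    have : ∫ x, x ∂(nu P G) = ∫ s, G s 0 ∂P :=
      integral_map (f := fun x => x) (W.sf.meas 0).aemeasurable continuous_id.aestronglyMeasurable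
    rw [this]
    exact W.mean hτ
  refine ⟨fun b A hA => ?_, ?_⟩
  · rcases lt_trichotomy b 0 with h | h | h
    · rw [abs_of_neg h]
      rw [Set.uIoo_of_gt h] at hA
      have q := neg (-b) (by linarith) {t | -t ∈ A} (fun t ht => by
        have := hA ht
        exact ⟨by linarith [this.2], by linarith [this.1]⟩)
      rw [bey_e h, vol_neg, refl_ap] at q
      have e2 : {t : ℝ | -t ∈ {t | -t ∈ A}} = A := by
        ext t
        show - -t ∈ A ↔ t ∈ A
        rw [neg_neg]
      rw [e2] at q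
      exact q
    · rw [h, abs_zero, zero_mul]
      have : 0 ≤ 9 * M ^ 2 * (nu P G A).toReal := by positivity
      simpa using this
    · rw [Bey_pos h, abs_of_pos h]
      rw [Set.uIoo_of_lt h] at hA
      exact pos b h A hA
  · rcases shape (ac hτ W) ex ez pos neg with h | h
    · left
      have := prob_compl_eq_zero_iff (μ := nu P G) (measurableSet_singleton (0 : ℝ))
      exact this.1 h
    · exact Or.inr h

end

section canonical

variable (d : ℕ)

/-- the space of smooth solutions -/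
abbrev Sp : Type := {f : E d → ℝ // ContDiff ℝ ∞ f ∧ ∀ y, Lap f y = -f y}

variable {d}

lemma D_tr (f : E d → ℝ) (x : E d) (i : Fin d) :
    D i (fun y => f (y + x)) = fun y => D i f (y + x) := by
  funext y
  show fderiv ℝ (fun y => f (y + x)) y _ = fderiv ℝ f (y + x) _
  rw [fderiv_comp_add_right]

lemma Lap_tr (f : E d → ℝ) (x y : E d) : Lap (fun y => f (y + x)) y = Lap f (y + x) := by
  unfold Lap
  refine Finset.sum_congr rfl fun i _ => ?_
  rw [D_tr, D_tr]

/-- the shift -/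
def sh (x : E d) (f : Sp d) : Sp d :=
  ⟨fun y => f.1 (y + x), f.2.1.comp (contDiff_id.add contDiff_const), fun y => by
    rw [Lap_tr]; exact f.2.2 _⟩

lemma sh_me (x : E d) : Measurable (sh x) := by
  refine Measurable.subtype_mk (measurable_pi_iff.2 fun y => ?_)
  exact (measurable_pi_apply (y + x)).comp measurable_subtype_coe

variable {S : Type*} [MeasurableSpace S] {P : Measure S}

theorem fin2 [IsProbabilityMeasure P] {F : S → E d → ℝ} (mF : ∀ y, Measurable fun s => F s y)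
    (sF : ∀ s, ContDiff ℝ ∞ (F s)) (eF : ∀ s y, Lap (F s) y + F s y = 0)
    (st : ∀ x : E d, P.map (fun s y => F s (y + x)) = P.map (fun s y => F s y))
    (l2 : Integrable (fun s => F s 0 ^ 2) P) :
    ∫ s, F s 0 ∂P = 0 ∧
    (∀ (b : ℝ) (A : Set ℝ), A ⊆ Set.uIoo 0 b →
      (volume A).toReal * (|b| * (P.map (fun s => F s 0) (Bey b)).toReal) ^ 3 ≤
        9 * (∫ s, F s 0 ^ 2 ∂P) ^ 2 * (P.map (fun s => F s 0) A).toReal) ∧
    (P.map (fun s => F s 0) {0} = 1 ∨ ∃ J : Set ℝ, IsOpen J ∧ J.OrdConnected ∧ (0 : ℝ) ∈ J ∧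
      (P.map (fun s => F s 0)).restrict {0}ᶜ ≪ volume.restrict J ∧
        volume.restrict J ≪ (P.map (fun s => F s 0)).restrict {0}ᶜ) := by
  obtain ⟨Φ, hΦ⟩ : ∃ Φ : S → Sp d, Φ = fun s => ⟨F s, sF s, fun y => by
    have := eF s y; linarith⟩ := ⟨_, rfl⟩
  have v1 : ∀ s, (Φ s).1 = F s := fun s => by rw [hΦ]
  have mΦ : Measurable Φ := by
    rw [hΦ]
    exact Measurable.subtype_mk (measurable_pi_iff.2 mF)
  have hQ : IsProbabilityMeasure (P.map Φ) := Measure.isProbabilityMeasure_map mΦ.aemeasurable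
  have hτ : ∀ x : E d, MeasurePreserving (sh x) (P.map Φ) (P.map Φ) := by
    intro x
    refine ⟨sh_me x, ?_⟩
    rw [Measure.map_map (sh_me x) mΦ]
    ext A mA
    obtain ⟨B, mB, rfl⟩ := mA
    have e1 : ((sh x ∘ Φ) ⁻¹' (Subtype.val ⁻¹' B)) = (fun s y => F s (y + x)) ⁻¹' B := by
      ext s
      show (fun y => (Φ s).1 (y + x)) ∈ B ↔ (fun y => F s (y + x)) ∈ B
      rw [v1]
    have e2 : (Φ ⁻¹' (Subtype.val ⁻¹' B)) = (fun s y => F s y) ⁻¹' B := by
      ext s
      show (Φ s).1 ∈ B ↔ (fun y => F s y) ∈ B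
      rw [v1]
    have mV : MeasurableSet (Subtype.val ⁻¹' B : Set (Sp d)) := ⟨B, mB, rfl⟩
    rw [Measure.map_apply ((sh_me x).comp mΦ) mV, Measure.map_apply mΦ mV, e1, e2,
      ← Measure.map_apply (measurable_pi_iff.2 fun y => mF (y + x)) mB,
      ← Measure.map_apply (measurable_pi_iff.2 fun y => mF y) mB, st x]
  have W : Wave (P.map Φ) sh (fun f : Sp d => f.1) := by
    refine ⟨⟨fun y => (measurable_pi_apply y).comp measurable_subtype_coe, fun f => f.2.1,
      fun x f y => rfl⟩, fun f y => f.2.2 y, ?_⟩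
    have m0 : Measurable fun f : Sp d => f.1 0 :=
      (measurable_pi_apply 0).comp measurable_subtype_coe
    refine (integrable_map_measure (m0.pow_const 2).aestronglyMeasurable mΦ.aemeasurable).2 ?_
    refine l2.congr (ae_of_all _ fun s => ?_)
    show F s 0 ^ 2 = (Φ s).1 0 ^ 2
    rw [v1]
  have en : nu (P.map Φ) (fun f : Sp d => f.1) = P.map (fun s => F s 0) := by
    unfold nu
    have m0 : Measurable fun f : Sp d => f.1 0 :=
      (measurable_pi_apply 0).comp measurable_subtype_coe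
    rw [Measure.map_map m0 mΦ]
    congr 1
    funext s
    show (Φ s).1 0 = F s 0
    rw [v1]
  have e2 : ∫ f, (f.1 0) ^ 2 ∂(P.map Φ) = ∫ s, F s 0 ^ 2 ∂P := by
    have m0 : Measurable fun f : Sp d => f.1 0 :=
      (measurable_pi_apply 0).comp measurable_subtype_coe
    rw [integral_map mΦ.aemeasurable (m0.pow_const 2).aestronglyMeasurable]
    simp only [v1]
  have e3 : ∫ f, f.1 0 ∂(P.map Φ) = ∫ s, F s 0 ∂P := by
    have m0 : Measurable fun f : Sp d => f.1 0 :=
      (measurable_pi_apply 0).comp measurable_subtype_coe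
    rw [integral_map mΦ.aemeasurable m0.aestronglyMeasurable]
    simp only [v1]
  have q1 := fin1 hτ W
  have q2 := W.mean hτ
  rw [e3] at q2
  rw [en, e2] at q1
  exact ⟨q2, q1⟩

end canonical

end

end Pool.Agent.Y139.SW
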